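import Pool.Agent.Helper4.CB.Defs

/-!
# CB, theorem T-TRI, piece E: definitions

The variable `X 0` is the LAST variable chosen; `TriDeg dm P`: the degree of `P` in the first
variable (in the order of `Fin n`) which occurs in `P` is at most `dm`.
-/

set_option autoImplicit false

namespace Pool.Agent.Helper69.CB

open NumberField Pool.Agent.Helper4.CB

/-- bad places -/
def Bad {K : Type} [Field K] [NumberField K] (J : ℕ) (p : Pl K) : Prop := nm p ≡ 1 [MOD 2 ^ J]

/-- the valuation of `K` at a place -/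
noncomputable abbrev vl {K : Type} [Field K] [NumberField K] (p : Pl K) :
    Valuation K (WithZero (Multiplicative ℤ)) := p.valuation K

/-- the degree of `P` in the first variable occurring in `P` is at most `dm` -/
def TriDeg {K : Type} [Field K] (dm : ℕ) {n : ℕ} (P : MvPolynomial (Fin n) K) : Prop :=
  ∀ j : Fin n, (∀ i < j, P.degreeOf i = 0) → P.degreeOf j ≤ dm

/-- **ONE VARIABLE STEP (D)**, for a fixed `J`: `F i` polynomials of degree at most `dm` with
integral coefficients, one of them a unit, at all bad places; `T k` finite sets of polynomials with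
integral coefficients at all bad places, at each bad place one member of `T k` has a unit
coefficient, and the members of `T k` generate the unit ideal of `K[X]`; at most `A` polynomials and
sets, all degrees at most `Dg`.  Then some integral `τ` (at all bad places), outside a given finite
set, makes all `F i` units and one member of each `T k` a unit at each bad place. -/
def StepD (K : Type) [Field K] [NumberField K] (J dm A Dg : ℕ) : Prop :=
  ∀ (ι κ : Type) [Fintype ι] [Fintype κ] (F : ι → Polynomial K) (T : κ → Finset (Polynomial K)),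
    Fintype.card ι + Fintype.card κ ≤ A →
    (∀ i, (F i).natDegree ≤ dm ∧ (F i).natDegree ≤ Dg) →
    (∀ k, ∀ f ∈ T k, f.natDegree ≤ Dg) →
    (∀ p : Pl K, Bad J p → ∀ i, (∀ j, vl p ((F i).coeff j) ≤ 1) ∧ ∃ j, vl p ((F i).coeff j) = 1) →
    (∀ p : Pl K, Bad J p → ∀ k, (∀ f ∈ T k, ∀ j, vl p (f.coeff j) ≤ 1) ∧
      ∃ f ∈ T k, ∃ j, vl p (f.coeff j) = 1) →
    (∀ k, Ideal.span (T k : Set (Polynomial K)) = ⊤) →
    ∀ Z : Finset K, ∃ τ : K, τ ∉ Z ∧ ∀ p : Pl K, Bad J p → vl p τ ≤ 1 ∧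
      (∀ i, vl p ((F i).eval τ) = 1) ∧ ∀ k, ∃ f ∈ T k, vl p (f.eval τ) = 1

/-- **THE CLAIM (E)** -/
def TriClaim (K : Type) [Field K] [NumberField K] (J dm A Dg n : ℕ) : Prop :=
  ∀ (ι κ : Type) [Fintype ι] [Fintype κ] (F : ι → MvPolynomial (Fin n) K)
    (T : κ → Finset (MvPolynomial (Fin n) K)) (H : MvPolynomial (Fin n) K),
    Fintype.card ι + Fintype.card κ ≤ A →
    (∀ i, Irreducible (F i) ∧ TriDeg dm (F i)) →
    (∀ k, (∃ f ∈ T k, f ≠ 0) ∧ ∀ q, Irreducible q → ∃ f ∈ T k, ¬ q ∣ f) →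
    (∀ i j, (F i).degreeOf j ≤ Dg) → (∀ k, ∀ f ∈ T k, ∀ j, f.degreeOf j ≤ Dg) →
    (∀ p : Pl K, Bad J p → ∀ i m, (F i).coeff m ≠ 0 → vl p ((F i).coeff m) = 1) →
    (∀ p : Pl K, Bad J p → ∀ k, ∀ f ∈ T k, ∀ m, f.coeff m ≠ 0 → vl p (f.coeff m) = 1) →
    H ≠ 0 →
    ∃ t : Fin n → K, MvPolynomial.eval t H ≠ 0 ∧ ∀ p : Pl K, Bad J p → (∀ j, vl p (t j) ≤ 1) ∧
      (∀ i, vl p (MvPolynomial.eval t (F i)) = 1) ∧
      ∀ k, ∃ f ∈ T k, vl p (MvPolynomial.eval t f) = 1

end Pool.Agent.Helper69.CB
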