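import Pool.Agent.Helper16.CB.Defs
import Pool.Agent.Helper35.CB.Legendre

/-!
# CB, piece A5: small values of `Q(v) / (a b)` on a subgroup of index at most `N(ab)`
-/

set_option autoImplicit false

namespace Pool.Agent.Helper69.CB

open NumberField Module Finset Pool.Agent.Helper16.CB Pool.Agent.Helper35.CB

/-- the integers of bounded size at all embeddings are finite in number -/
theorem finite_bdd (L : Type*) [Field L] [NumberField L] (C : ℝ) :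
    {w : 𝓞 L | ∀ φ : L →+* ℂ, ‖φ w‖ ≤ C}.Finite := by
  have h := NumberField.Embeddings.finite_of_norm_le L ℂ C
  refine Set.Finite.of_finite_image (f := fun w : 𝓞 L => (w : L)) (h.subset ?_) ?_
  · rintro _ ⟨w, hw, rfl⟩
    exact ⟨RingOfIntegers.isIntegral_coe w, hw⟩
  · intro x _ y _ h
    exact RingOfIntegers.ext h

/-- the pigeonhole principle for a subgroup of `(𝓞 L)^3` -/
theorem pigeon_sub {L : Type*} [Field L] [NumberField L] (G : AddSubgroup (𝓞 L × 𝓞 L × 𝓞 L))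
    (hG : G.index ≠ 0) (X Y Z : ℝ) (hX : 1 ≤ X) (hY : 1 ≤ Y) (hZ : 1 ≤ Z)
    (h : (G.index : ℝ) ≤ (X * Y * Z) ^ finrank ℚ L) :
    ∃ v ∈ G, v ≠ 0 ∧ ∀ σ : L →+* ℂ, ‖σ (v.1 : L)‖ ≤ X * SS L ∧ ‖σ (v.2.1 : L)‖ ≤ Y * SS L ∧
      ‖σ (v.2.2 : L)‖ ≤ Z * SS L := by
  classical
  set b := RingOfIntegers.basis L with hb
  set n := finrank ℚ L with hn
  have hnpos : 0 < n := finrank_pos
  let T : ℝ → Type _ := fun X => Ix L → Fin (⌊X⌋₊ + 1)
  let el : (X : ℝ) → T X → 𝓞 L := fun X a => ∑ j, ((a j : ℕ) : ℤ) • b j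
  have hcard : ∀ X : ℝ, Fintype.card (T X) = (⌊X⌋₊ + 1) ^ n := by
    intro X
    simp only [T, Fintype.card_pi, prod_const, Fintype.card_fin]
    rw [card_univ, card_ix]
  have hel : ∀ (X : ℝ) (a a' : T X), el X a - el X a' =
      ∑ j, (((a j : ℕ) : ℤ) - ((a' j : ℕ) : ℤ)) • b j := by
    intro X a a'
    simp only [el, sub_smul, sum_sub_distrib]
  have hinj : ∀ (X : ℝ) (a a' : T X), el X a - el X a' = 0 → a = a' := by
    intro X a a' h0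
    rw [hel] at h0
    funext j
    have h2 := (Fintype.linearIndependent_iff.1 b.linearIndependent) _ h0 j
    apply Fin.ext
    omega
  have hnorm : ∀ (X : ℝ) (_ : 1 ≤ X) (a a' : T X) (σ : L →+* ℂ),
      ‖σ ((el X a - el X a' : 𝓞 L) : L)‖ ≤ X * SS L := by
    intro X hX a a' σ
    rw [hel]
    refine norm_le_of_coord (fun j => ((a j : ℕ) : ℤ) - ((a' j : ℕ) : ℤ)) X (fun j => ?_)
      (by linarith) σ
    have hf : ((⌊X⌋₊ : ℕ) : ℝ) ≤ X := Nat.floor_le (by linarith)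
    have h1 : (a j : ℕ) ≤ ⌊X⌋₊ := by have := (a j).2; omega
    have h2 : (a' j : ℕ) ≤ ⌊X⌋₊ := by have := (a' j).2; omega
    have h3 : ((a j : ℕ) : ℝ) ≤ X := le_trans (by exact_mod_cast h1) hf
    have h4 : ((a' j : ℕ) : ℝ) ≤ X := le_trans (by exact_mod_cast h2) hf
    push_cast
    rw [abs_le]
    constructor <;> linarith [Nat.cast_nonneg (α := ℝ) (a j : ℕ),
      Nat.cast_nonneg (α := ℝ) (a' j : ℕ)]
  have : G.FiniteIndex := ⟨hG⟩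
  let : Fintype ((𝓞 L × 𝓞 L × 𝓞 L) ⧸ G) := AddSubgroup.fintypeQuotientOfFiniteIndex
  have hq : Fintype.card ((𝓞 L × 𝓞 L × 𝓞 L) ⧸ G) = G.index := by
    rw [AddSubgroup.index_eq_card, Nat.card_eq_fintype_card]
  let F : T X × T Y × T Z → (𝓞 L × 𝓞 L × 𝓞 L) ⧸ G := fun t =>
    QuotientAddGroup.mk (el X t.1, el Y t.2.1, el Z t.2.2)
  have hlt : Fintype.card ((𝓞 L × 𝓞 L × 𝓞 L) ⧸ G) < Fintype.card (T X × T Y × T Z) := by
    rw [hq, Fintype.card_prod, Fintype.card_prod, hcard, hcard, hcard]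
    have h1 : (X * Y * Z) ^ n <
        (((⌊X⌋₊ + 1 : ℕ) : ℝ) * ((⌊Y⌋₊ + 1 : ℕ) : ℝ) * ((⌊Z⌋₊ + 1 : ℕ) : ℝ)) ^ n := by
      apply pow_lt_pow_left₀ _ (by positivity) hnpos.ne'
      have hx : X < ((⌊X⌋₊ + 1 : ℕ) : ℝ) := by push_cast; exact Nat.lt_floor_add_one _
      have hy : Y < ((⌊Y⌋₊ + 1 : ℕ) : ℝ) := by push_cast; exact Nat.lt_floor_add_one _
      have hz : Z < ((⌊Z⌋₊ + 1 : ℕ) : ℝ) := by push_cast; exact Nat.lt_floor_add_one _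
      have hX0 : 0 < X := by linarith
      have hY0 : 0 < Y := by linarith
      have hZ0 : 0 < Z := by linarith
      have hxy : X * Y < ((⌊X⌋₊ + 1 : ℕ) : ℝ) * ((⌊Y⌋₊ + 1 : ℕ) : ℝ) :=
        mul_lt_mul'' hx hy hX0.le hY0.le
      exact mul_lt_mul'' hxy hz (by positivity) hZ0.le
    have h2 : (G.index : ℝ) < (((⌊X⌋₊ + 1) ^ n * ((⌊Y⌋₊ + 1) ^ n * (⌊Z⌋₊ + 1) ^ n) : ℕ) : ℝ) := by
      refine lt_of_le_of_lt h (lt_of_lt_of_eq h1 ?_)
      rw [mul_pow, mul_pow, mul_assoc]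
      push_cast
      rfl
    exact_mod_cast h2
  obtain ⟨t, t', hne, hF⟩ := Fintype.exists_ne_map_eq_of_card_lt F hlt
  have hmem : (el X t.1 - el X t'.1, el Y t.2.1 - el Y t'.2.1, el Z t.2.2 - el Z t'.2.2) ∈ G := by
    have h1 := QuotientAddGroup.eq.1 hF.symm
    have h2 : -((el X t'.1, el Y t'.2.1, el Z t'.2.2) : 𝓞 L × 𝓞 L × 𝓞 L) +
        (el X t.1, el Y t.2.1, el Z t.2.2) =
        (el X t.1 - el X t'.1, el Y t.2.1 - el Y t'.2.1, el Z t.2.2 - el Z t'.2.2) := by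
      ext <;> simp [sub_eq_neg_add]
    rwa [h2] at h1
  refine ⟨_, hmem, ?_, fun σ => ⟨hnorm X hX _ _ σ, hnorm Y hY _ _ σ, hnorm Z hZ _ _ σ⟩⟩
  intro h0
  apply hne
  rw [Prod.ext_iff, Prod.ext_iff] at h0
  obtain ⟨h1, h2, h3⟩ := h0
  exact Prod.ext (hinj X _ _ h1) (Prod.ext (hinj Y _ _ h2) (hinj Z _ _ h3))

/-- A5 -/
theorem mink (L : Type*) [Field L] [NumberField L] (c : ℝ) :
    ∃ W : Finset (𝓞 L), ∀ a b : 𝓞 L, a ≠ 0 → b ≠ 0 → Bal c a → Bal c b →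
      ∀ G : AddSubgroup (𝓞 L × 𝓞 L × 𝓞 L), G.index ≠ 0 →
        G.index ≤ Ideal.absNorm (Ideal.span {a * b}) → (∀ v ∈ G, a * b ∣ Qf a b v) →
        ∃ v ∈ G, v ≠ 0 ∧ ∃ w ∈ W, Qf a b v = a * b * w := by
  classical
  refine ⟨(finite_bdd L ((1 + 2 * c) * SS L ^ 2 * c ^ 2)).toFinset, ?_⟩
  intro a b ha hb hBa hBb G hG hidx hdiv
  set n := finrank ℚ L with hn
  have hnpos : 0 < n := finrank_pos
  have hnR : (n : ℝ) ≠ 0 := by exact_mod_cast hnpos.ne'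
  have hone : ∀ x : 𝓞 L, x ≠ 0 → 1 ≤ (Ideal.absNorm (Ideal.span {x}) : ℝ) := by
    intro x hx
    have h1 : Ideal.absNorm (Ideal.span {x}) ≠ 0 := by
      rw [Ne, Ideal.absNorm_eq_zero_iff, Ideal.span_singleton_eq_bot]
      exact hx
    exact_mod_cast Nat.one_le_iff_ne_zero.2 h1
  set Na : ℝ := (Ideal.absNorm (Ideal.span {a}) : ℝ) with hNa
  set Nb : ℝ := (Ideal.absNorm (Ideal.span {b}) : ℝ) with hNb
  have hNa1 : 1 ≤ Na := hone a ha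
  have hNb1 : 1 ≤ Nb := hone b hb
  set α : ℝ := Na ^ (1 / (n : ℝ)) with hα
  set β : ℝ := Nb ^ (1 / (n : ℝ)) with hβ
  have hα1 : 1 ≤ α := Real.one_le_rpow hNa1 (by positivity)
  have hβ1 : 1 ≤ β := Real.one_le_rpow hNb1 (by positivity)
  have hαn : α ^ n = Na := by
    rw [hα, ← Real.rpow_natCast, ← Real.rpow_mul (by linarith), one_div, inv_mul_cancel₀ hnR,
      Real.rpow_one]
  have hβn : β ^ n = Nb := by
    rw [hβ, ← Real.rpow_natCast, ← Real.rpow_mul (by linarith), one_div, inv_mul_cancel₀ hnR,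
      Real.rpow_one]
  have hα0 : 0 < α := by linarith
  have hβ0 : 0 < β := by linarith
  have hprod : √(α * β) * √β * √α = α * β := by
    rw [mul_assoc, ← Real.sqrt_mul hβ0.le, mul_comm β α, Real.mul_self_sqrt (by positivity)]
  obtain ⟨v, hv, hv0, hσ⟩ := pigeon_sub G hG (√(α * β)) (√β) (√α)
    (by rw [Real.one_le_sqrt]; nlinarith) (by rw [Real.one_le_sqrt]; exact hβ1)
    (by rw [Real.one_le_sqrt]; exact hα1) (by
      rw [hprod, mul_pow, hαn, hβn]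
      have h1 : ((Ideal.absNorm (Ideal.span {a * b}) : ℕ) : ℝ) = Na * Nb := by
        rw [hNa, hNb, ← Nat.cast_mul, ← map_mul, Ideal.span_singleton_mul_span_singleton]
      rw [← h1]
      exact_mod_cast hidx)
  refine ⟨v, hv, hv0, ?_⟩
  obtain ⟨w, hw⟩ := hdiv v hv
  refine ⟨w, ?_, hw⟩
  rw [Set.Finite.mem_toFinset]
  intro σ
  obtain ⟨hx, hy, hz⟩ := hσ σ
  obtain ⟨ha1, ha2⟩ := hBa σ
  obtain ⟨hb1, hb2⟩ := hBb σ
  change ‖σ (a : L)‖ ≤ c * α at ha1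
  change α ≤ c * ‖σ (a : L)‖ at ha2
  change ‖σ (b : L)‖ ≤ c * β at hb1
  change β ≤ c * ‖σ (b : L)‖ at hb2
  set S := SS L with hS
  have hS0 : 0 ≤ S := SS_nonneg L
  have hc0 : 0 < c := by
    by_contra hcon
    push Not at hcon
    have := mul_nonpos_of_nonpos_of_nonneg hcon (norm_nonneg (σ (a : L)))
    linarith
  have e : σ ((Qf a b v : 𝓞 L) : L) = σ (v.1 : L) ^ 2 - σ (a : L) * σ (v.2.1 : L) ^ 2 -
      σ (b : L) * σ (v.2.2 : L) ^ 2 := by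
    unfold Qf
    simp only [map_sub, map_mul, map_pow]
  have t1 : ‖σ (v.1 : L) ^ 2‖ ≤ (α * β) * S ^ 2 := by
    rw [norm_pow]
    calc ‖σ (v.1 : L)‖ ^ 2 ≤ (√(α * β) * S) ^ 2 := pow_le_pow_left₀ (norm_nonneg _) hx 2
      _ = (α * β) * S ^ 2 := by rw [mul_pow, Real.sq_sqrt (by positivity)]
  have t2 : ‖σ (a : L) * σ (v.2.1 : L) ^ 2‖ ≤ c * (α * β) * S ^ 2 := by
    rw [norm_mul, norm_pow]
    calc ‖σ (a : L)‖ * ‖σ (v.2.1 : L)‖ ^ 2 ≤ (c * α) * (√β * S) ^ 2 :=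
          mul_le_mul ha1 (pow_le_pow_left₀ (norm_nonneg _) hy 2) (by positivity) (by positivity)
      _ = c * (α * β) * S ^ 2 := by rw [mul_pow, Real.sq_sqrt hβ0.le]; ring
  have t3 : ‖σ (b : L) * σ (v.2.2 : L) ^ 2‖ ≤ c * (α * β) * S ^ 2 := by
    rw [norm_mul, norm_pow]
    calc ‖σ (b : L)‖ * ‖σ (v.2.2 : L)‖ ^ 2 ≤ (c * β) * (√α * S) ^ 2 :=
          mul_le_mul hb1 (pow_le_pow_left₀ (norm_nonneg _) hz 2) (by positivity) (by positivity)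
      _ = c * (α * β) * S ^ 2 := by rw [mul_pow, Real.sq_sqrt hα0.le]; ring
  have hQ : ‖σ ((Qf a b v : 𝓞 L) : L)‖ ≤ (1 + 2 * c) * S ^ 2 * (α * β) := by
    rw [e]
    refine (norm_sub_le _ _).trans ?_
    have := norm_sub_le (σ (v.1 : L) ^ 2) (σ (a : L) * σ (v.2.1 : L) ^ 2)
    linarith
  have hσw : ‖σ ((Qf a b v : 𝓞 L) : L)‖ = ‖σ (a : L)‖ * ‖σ (b : L)‖ * ‖σ (w : L)‖ := by
    rw [hw]
    simp only [map_mul, norm_mul]
  have h5 : α * β ≤ c ^ 2 * (‖σ (a : L)‖ * ‖σ (b : L)‖) := by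
    calc α * β ≤ (c * ‖σ (a : L)‖) * (c * ‖σ (b : L)‖) :=
          mul_le_mul ha2 hb2 hβ0.le (by positivity)
      _ = _ := by ring
  have h6 : (α * β) * ‖σ (w : L)‖ ≤ (α * β) * ((1 + 2 * c) * S ^ 2 * c ^ 2) := by
    calc (α * β) * ‖σ (w : L)‖ ≤ c ^ 2 * (‖σ (a : L)‖ * ‖σ (b : L)‖) * ‖σ (w : L)‖ :=
          mul_le_mul_of_nonneg_right h5 (norm_nonneg _)
      _ = c ^ 2 * ‖σ ((Qf a b v : 𝓞 L) : L)‖ := by rw [hσw]; ring
      _ ≤ c ^ 2 * ((1 + 2 * c) * S ^ 2 * (α * β)) := mul_le_mul_of_nonneg_left hQ (by positivity)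
      _ = _ := by ring
  exact le_of_mul_le_mul_left h6 (by positivity)

end Pool.Agent.Helper69.CB
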