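import Pool.Agent.Helper23.CB.Fac3

/-!
# CB, degree 3, part (A) of `core3`: the sieve upper bound in `Γ0 ⊓ Λ b`
-/

set_option autoImplicit false

namespace Pool.Agent.Helper69.CB

open Finset Pool.Agent.Helper4.CB Pool.Agent.Helper23.CB

open Classical in
/-- the conclusion of `sift` for one system -/
def SiftB {N : ℕ} {G : Type} [AddCommGroup G] (S : Sys N G) (K zs : ℕ) : Prop :=
  ∀ z : ℕ, zs ≤ z → ∀ (Λ : AddSubgroup G) (ρ X : ℕ) (τ x0 : G), Λ.index ≠ 0 →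
      (∀ T : Finset S.Q, T ⊆ S.le z → Λ ⊔ T.inf S.Γ = ⊤) → Rad S.e Λ ρ →
      z ^ K * (ρ + 1) ≤ X →
      |(((bx S.e τ X).filter (fun g => g - x0 ∈ Λ ∧ ∀ q ∈ S.le z, g ∉ S.E q)).card : ℝ) -
          (X : ℝ) ^ N / Λ.index * S.V z| ≤ 1 / 4 * ((X : ℝ) ^ N / Λ.index * S.V z)

/-- `sift` in this form -/
theorem exists_siftB (N D : ℕ) (C : ℝ) : ∃ K Y0 z1 : ℕ, ∀ (G : Type) [AddCommGroup G]
    (S : Sys N G), S.D = D → (∀ q, Y0 ≤ S.nm q) → S.Mert C → SiftB S K z1 :=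
  Pool.Agent.Helper4.CB.sift N D C

open Classical in
/-- the upper bound in the coset of `Γ0 ⊓ Λ` -/
theorem upper_b {N : ℕ} {G : Type} [AddCommGroup G] (S : Sys N G) (K zs : ℕ)
    (hs : SiftB S K zs) {Γ0 Λ : AddSubgroup G} (hΓ0 : Γ0.index ≠ 0) (hΛ : Λ.index ≠ 0) {z : ℕ}
    (hz : zs ≤ z) (h0 : ∀ T : Finset S.Q, T ⊆ S.le z → Γ0 ⊔ (Λ ⊓ T.inf S.Γ) = ⊤)
    (h1 : ∀ T : Finset S.Q, T ⊆ S.le z → Λ ⊔ T.inf S.Γ = ⊤) {ρ X : ℕ} (hρ : Rad S.e Λ ρ)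
    (hX : z ^ K * (Γ0.index * (ρ + 1) + 1) ≤ X) (τ x0 : G) :
    (((bx S.e τ X).filter (fun g => g - x0 ∈ Γ0 ∧ (∀ q ∈ S.le z, g ∉ S.E q) ∧ g ∈ Λ)).card : ℝ) ≤
      5 / 4 * ((X : ℝ) ^ N / (Γ0.index * Λ.index) * S.V z) := by
  have hsup : Γ0 ⊔ Λ = ⊤ := by
    have h2 := h0 ∅ (empty_subset _)
    rwa [Finset.inf_empty, inf_top_eq] at h2
  have hidx : (Γ0 ⊓ Λ).index = Γ0.index * Λ.index := index_inf hsup hΓ0 hΛ
  have hidx0 : (Γ0 ⊓ Λ).index ≠ 0 := by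
    rw [hidx]
    exact mul_ne_zero hΓ0 hΛ
  obtain ⟨a, ha, b, hb, hab⟩ : ∃ a ∈ Γ0, ∃ b ∈ Λ, a + b = x0 := by
    have h2 : x0 ∈ Γ0 ⊔ Λ := by rw [hsup]; trivial
    exact AddSubgroup.mem_sup.mp h2
  have h2 := hs z hz (Γ0 ⊓ Λ) (Γ0.index * (ρ + 1)) X τ b hidx0
    (fun T hT => sup_of_sup (h0 T hT) (h1 T hT)) (rad_inf_index hρ hΓ0) hX
  rw [abs_le] at h2
  have h3 : (bx S.e τ X).filter (fun g => g - x0 ∈ Γ0 ∧ (∀ q ∈ S.le z, g ∉ S.E q) ∧ g ∈ Λ) =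
      (bx S.e τ X).filter (fun g => g - b ∈ Γ0 ⊓ Λ ∧ ∀ q ∈ S.le z, g ∉ S.E q) := by
    apply Finset.filter_congr
    intro g _
    rw [AddSubgroup.mem_inf]
    constructor
    · rintro ⟨h4, h5, h6⟩
      refine ⟨⟨?_, Λ.sub_mem h6 hb⟩, h5⟩
      have h7 : g - b = (g - x0) + a := by rw [← hab]; abel
      rw [h7]
      exact Γ0.add_mem h4 ha
    · rintro ⟨⟨h4, h5⟩, h6⟩
      refine ⟨?_, h6, ?_⟩
      · have h7 : g - x0 = (g - b) - a := by rw [← hab]; abel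
        rw [h7]
        exact Γ0.sub_mem h4 ha
      · have h7 : g = (g - b) + b := by abel
        rw [h7]
        exact Λ.add_mem h5 hb
  rw [h3]
  have h4 : ((Γ0 ⊓ Λ).index : ℝ) = Γ0.index * Λ.index := by exact_mod_cast hidx
  rw [h4] at h2
  linarith [h2.2]

open Classical in
/-- the lower bound in the base coset -/
theorem lower_base {N : ℕ} {G : Type} [AddCommGroup G] (S : Sys N G) (K zs : ℕ)
    (hs : SiftB S K zs) {Γ0 : AddSubgroup G} (hΓ0 : Γ0.index ≠ 0) {z : ℕ}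
    (hz : zs ≤ z) (h0 : ∀ T : Finset S.Q, T ⊆ S.le z → Γ0 ⊔ T.inf S.Γ = ⊤) {X : ℕ}
    (hX : z ^ K * (Γ0.index + 1) ≤ X) (τ x0 : G) :
    3 / 4 * ((X : ℝ) ^ N / Γ0.index * S.V z) ≤
      (((bx S.e τ X).filter (fun g => g - x0 ∈ Γ0 ∧ ∀ q ∈ S.le z, g ∉ S.E q)).card : ℝ) := by
  have hrad : Rad S.e (⊤ : AddSubgroup G) 0 := by
    intro g
    refine ⟨g, AddSubgroup.mem_top g, fun i => ?_⟩
    rw [sub_self, map_zero]
    simp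
  have hrad0 : Rad S.e Γ0 Γ0.index := by
    have h1 := rad_inf_index hrad hΓ0
    rwa [inf_top_eq, zero_add, mul_one] at h1
  have h2 := hs z hz Γ0 Γ0.index X τ x0 hΓ0 h0 hrad0 hX
  rw [abs_le] at h2
  linarith [h2.1]

open Classical in
/-- **(A)** the number of points of the box of side `T ^ (2 E)` in `Λ b` and in the base coset
which are in no `E q`, `nm q ≤ T` -/
theorem countA {n : ℕ} {G : Type} [AddCommGroup G] {S : Sys (2 * n) G} (F : Fac3 n S)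
    (K zs : ℕ) (hs : SiftB S K zs) {Γ0 : AddSubgroup G} (hΓ0 : Γ0.index ≠ 0) {T : ℕ}
    (hT : zs ≤ T) (hT2 : 3 * Γ0.index ≤ T ^ 2) (E : ℕ) (hE : K + 2 ≤ 2 * E) (b : F.B)
    (hpf : ∀ q ∈ F.pf b, T < S.nm q)
    (hΓΛ : ∀ T' : Finset S.Q, (∀ q ∈ F.pf b, q ∉ T') → Γ0 ⊔ (F.Λ b ⊓ T'.inf S.Γ) = ⊤)
    (hrad : Rad S.e (F.Λ b) (T ^ (2 * E - (K + 2)))) (τ x0 : G) :
    (((bx S.e τ (T ^ (2 * E))).filter (fun g => g - x0 ∈ Γ0 ∧ (∀ q ∈ S.le T, g ∉ S.E q) ∧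
        g ∈ F.Λ b)).card : ℝ) ≤
      5 / 4 * (((T ^ (2 * E) : ℕ) : ℝ) ^ (2 * n) / Γ0.index * S.V T) * (1 / F.bn b) := by
  have hΛ : (F.Λ b).index ≠ 0 := by
    rw [F.index b]
    exact F.bn_pos b
  have hdis : ∀ T' : Finset S.Q, T' ⊆ S.le T → ∀ q ∈ F.pf b, q ∉ T' := by
    intro T' hT' q hq hc
    have h1 := S.mem_le.mp (hT' hc)
    have h2 := hpf q hq
    omega
  have hi : 1 ≤ Γ0.index := Nat.one_le_iff_ne_zero.2 hΓ0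
  have hT1 : 1 ≤ T := by
    by_contra hc
    have h1 : T = 0 := by omega
    rw [h1] at hT2
    simp at hT2
    exact hΓ0 hT2
  have hX : T ^ K * (Γ0.index * (T ^ (2 * E - (K + 2)) + 1) + 1) ≤ T ^ (2 * E) := by
    set t : ℕ := T ^ (2 * E - (K + 2)) with ht
    have ht1 : 1 ≤ t := Nat.one_le_pow _ _ hT1
    have h1 : Γ0.index * (t + 1) + 1 ≤ 3 * Γ0.index * t := by nlinarith
    have h2 : 3 * Γ0.index * t ≤ T ^ 2 * t := Nat.mul_le_mul_right _ hT2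
    have h3 : T ^ K * (T ^ 2 * t) = T ^ (2 * E) := by
      rw [ht, ← pow_add, ← pow_add]
      congr 1
      omega
    calc T ^ K * (Γ0.index * (t + 1) + 1) ≤ T ^ K * (T ^ 2 * t) :=
          Nat.mul_le_mul_left _ (h1.trans h2)
      _ = T ^ (2 * E) := h3
  have h1 := upper_b S K zs hs hΓ0 hΛ hT (fun T' hT' => hΓΛ T' (hdis T' hT'))
    (fun T' hT' => F.sup b T' (hdis T' hT')) hrad hX τ x0
  refine h1.trans (le_of_eq ?_)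
  rw [F.index b]
  have h2 : (Γ0.index : ℝ) ≠ 0 := by exact_mod_cast hΓ0
  have h3 : (F.bn b : ℝ) ≠ 0 := by exact_mod_cast F.bn_pos b
  field_simp

end Pool.Agent.Helper69.CB
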