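import Mathlib

/-! MP_e4665f_co: the counting lemma for the lower bound. -/

set_option autoImplicit false

namespace Pool.Agent.Helper69.CB

open Finset SimpleGraph

variable {V : Type*} [Fintype V] [DecidableEq V]

/-- If any two nonadjacent vertices `x ≠ y` of degree at most `b - 2` have at least
`b - 1 - deg x` common neighbours, then `2 e(G) ≥ (b - 1) (|V| - b ^ 2)`. -/
theorem low_count (G : SimpleGraph V) [DecidableRel G.Adj] (b : ℕ) (hb : 2 ≤ b)
    (h : ∀ x y, x ≠ y → ¬ G.Adj x y → G.degree x + 2 ≤ b → G.degree y + 2 ≤ b →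
      b ≤ G.degree x + (G.neighborFinset x ∩ G.neighborFinset y).card + 1) :
    (b - 1) * Fintype.card V ≤ 2 * G.edgeFinset.card + (b - 1) * b ^ 2 := by
  classical
  set Low : Finset V := univ.filter fun x => G.degree x + 2 ≤ b with hLow
  have memLow : ∀ x, x ∈ Low ↔ G.degree x + 2 ≤ b := fun x => by simp [hLow]
  -- a general estimate
  have gen : ∀ Big : Finset V, (∀ v, v ∉ Big → b ≤ G.degree v + (G.neighborFinset v ∩ Big).card + 1) →
      Big.card ≤ b ^ 2 → (b - 1) * Fintype.card V ≤ 2 * G.edgeFinset.card + (b - 1) * b ^ 2 := by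
    intro Big hBig hcard
    have h1 : ∑ v, G.degree v = 2 * G.edgeFinset.card := G.sum_degrees_eq_twice_card_edges
    have h2 : ∑ v, G.degree v = ∑ v ∈ Big, G.degree v + ∑ v ∈ Bigᶜ, G.degree v :=
      (Finset.sum_add_sum_compl Big _).symm
    have h3 : ∑ v ∈ Bigᶜ, (G.neighborFinset v ∩ Big).card ≤ ∑ v ∈ Big, G.degree v := by
      have h4 : ∑ v ∈ Bigᶜ, (G.neighborFinset v ∩ Big).card
          = ∑ z ∈ Big, (G.neighborFinset z ∩ Bigᶜ).card := by
        have e1 : ∀ v, (G.neighborFinset v ∩ Big).card = ∑ z ∈ Big, if G.Adj v z then 1 else 0 := by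
          intro v
          rw [Finset.card_eq_sum_ones, ← Finset.sum_filter]
          refine Finset.sum_congr ?_ fun _ _ => rfl
          ext z
          simp [and_comm]
        have e2 : ∀ z, (G.neighborFinset z ∩ Bigᶜ).card = ∑ v ∈ Bigᶜ, if G.Adj v z then 1 else 0 := by
          intro z
          rw [Finset.card_eq_sum_ones, ← Finset.sum_filter]
          refine Finset.sum_congr ?_ fun _ _ => rfl
          ext v
          simp [and_comm, G.adj_comm z v]
        simp only [e1, e2]
        exact Finset.sum_comm
      rw [h4]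
      refine Finset.sum_le_sum fun z _ => ?_
      rw [← G.card_neighborFinset_eq_degree]
      exact Finset.card_le_card Finset.inter_subset_left
    have h5 : ∑ v ∈ Bigᶜ, (b - 1) ≤ ∑ v ∈ Bigᶜ, (G.degree v + (G.neighborFinset v ∩ Big).card) := by
      refine Finset.sum_le_sum fun v hv => ?_
      have := hBig v (Finset.mem_compl.1 hv)
      omega
    rw [Finset.sum_const, smul_eq_mul, Finset.sum_add_distrib] at h5
    have h6 : Bigᶜ.card + Big.card = Fintype.card V := by
      rw [add_comm]; exact Finset.card_add_card_compl Big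
    calc (b - 1) * Fintype.card V = Bigᶜ.card * (b - 1) + (b - 1) * Big.card := by
          rw [← h6]; ring
      _ ≤ 2 * G.edgeFinset.card + (b - 1) * b ^ 2 := by
          refine Nat.add_le_add ?_ (Nat.mul_le_mul_left _ hcard)
          omega
  by_cases hL : Low.card ≤ b ^ 2
  · refine gen Low (fun v hv => ?_) hL
    rw [memLow] at hv
    omega
  push Not at hL
  set Big : Finset V := univ.filter fun z => Low.card ≤ b * (G.neighborFinset z ∩ Low).card with hBig
  have memBig : ∀ z, z ∈ Big ↔ Low.card ≤ b * (G.neighborFinset z ∩ Low).card := fun z => by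
    simp [hBig]
  have dc : ∑ z, (G.neighborFinset z ∩ Low).card = ∑ x ∈ Low, G.degree x := by
    have e1 : ∀ z, (G.neighborFinset z ∩ Low).card = ∑ x ∈ Low, if G.Adj x z then 1 else 0 := by
      intro z
      rw [Finset.card_eq_sum_ones, ← Finset.sum_filter]
      refine Finset.sum_congr ?_ fun _ _ => rfl
      ext x
      simp [and_comm, G.adj_comm z x]
    simp only [e1]
    rw [Finset.sum_comm]
    refine Finset.sum_congr rfl fun x _ => ?_
    rw [← Finset.sum_filter, ← Finset.card_eq_sum_ones, ← G.card_neighborFinset_eq_degree]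
    congr 1
    ext z
    simp
  have hsumLow : ∑ x ∈ Low, G.degree x ≤ Low.card * (b - 2) := by
    rw [← smul_eq_mul, ← Finset.sum_const]
    refine Finset.sum_le_sum fun x hx => ?_
    have := (memLow x).1 hx
    omega
  have hLpos : 0 < Low.card := lt_of_le_of_lt (Nat.zero_le _) hL
  have hBigcard : Big.card ≤ b ^ 2 := by
    have e1 : Big.card * Low.card ≤ b * (Low.card * (b - 2)) := by
      calc Big.card * Low.card = ∑ z ∈ Big, Low.card := by rw [Finset.sum_const, smul_eq_mul]
        _ ≤ ∑ z ∈ Big, b * (G.neighborFinset z ∩ Low).card :=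
            Finset.sum_le_sum fun z hz => (memBig z).1 hz
        _ ≤ ∑ z, b * (G.neighborFinset z ∩ Low).card :=
            Finset.sum_le_sum_of_subset (Finset.subset_univ _)
        _ = b * ∑ z, (G.neighborFinset z ∩ Low).card := (Finset.mul_sum _ _ _).symm
        _ ≤ b * (Low.card * (b - 2)) := by rw [dc]; exact Nat.mul_le_mul_left _ hsumLow
    have e2 : Big.card * Low.card ≤ (b * (b - 2)) * Low.card := by
      calc _ ≤ _ := e1
        _ = _ := by ring
    have e3 := Nat.le_of_mul_le_mul_right e2 hLpos
    calc Big.card ≤ b * (b - 2) := e3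
      _ ≤ b * b := Nat.mul_le_mul_left _ (Nat.sub_le _ _)
      _ = b ^ 2 := by ring
  refine gen Big (fun x hx => ?_) hBigcard
  by_contra hcon
  push Not at hcon
  have hxLow : G.degree x + 2 ≤ b := by omega
  -- the low vertices not adjacent to `x`
  set Y : Finset V := Low \ (insert x (G.neighborFinset x)) with hY
  have hYcard : Low.card ≤ Y.card + (G.degree x + 1) := by
    have e1 : Low.card ≤ Y.card + (insert x (G.neighborFinset x)).card := by
      exact Finset.card_le_card_sdiff_add_card (t := insert x (G.neighborFinset x)) (s := Low)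
    have e2 : (insert x (G.neighborFinset x)).card ≤ G.degree x + 1 := by
      rw [← G.card_neighborFinset_eq_degree]
      exact Finset.card_insert_le _ _
    omega
  have hcommon : ∀ y ∈ Y, 1 ≤ ((G.neighborFinset x \ Big) ∩ G.neighborFinset y).card := by
    intro y hy
    rw [hY, Finset.mem_sdiff, Finset.mem_insert, not_or] at hy
    obtain ⟨hy1, hy2, hy3⟩ := hy
    have hxy : ¬ G.Adj x y := fun hh => hy3 (by simpa using hh)
    have e1 := h x y (Ne.symm hy2) hxy hxLow ((memLow y).1 hy1)
    have e2 : (G.neighborFinset x ∩ G.neighborFinset y).card ≤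
        ((G.neighborFinset x \ Big) ∩ G.neighborFinset y).card + (G.neighborFinset x ∩ Big).card := by
      refine le_trans (Finset.card_le_card ?_) (Finset.card_union_le _ _)
      intro z hz
      rw [Finset.mem_inter] at hz
      rw [Finset.mem_union, Finset.mem_inter, Finset.mem_sdiff, Finset.mem_inter]
      by_cases hzB : z ∈ Big
      · exact Or.inr ⟨hz.1, hzB⟩
      · exact Or.inl ⟨⟨hz.1, hzB⟩, hz.2⟩
    omega
  have hdc2 : ∑ y ∈ Y, ((G.neighborFinset x \ Big) ∩ G.neighborFinset y).card ≤
      ∑ z ∈ G.neighborFinset x \ Big, (G.neighborFinset z ∩ Low).card := by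
    have e1 : ∀ y, ((G.neighborFinset x \ Big) ∩ G.neighborFinset y).card =
        ∑ z ∈ G.neighborFinset x \ Big, if G.Adj y z then 1 else 0 := by
      intro y
      rw [Finset.card_eq_sum_ones, ← Finset.sum_filter]
      refine Finset.sum_congr ?_ fun _ _ => rfl
      ext z
      simp
    simp only [e1]
    rw [Finset.sum_comm]
    refine Finset.sum_le_sum fun z _ => ?_
    rw [← Finset.sum_filter, ← Finset.card_eq_sum_ones]
    refine Finset.card_le_card fun y hy => ?_
    rw [Finset.mem_filter, hY, Finset.mem_sdiff] at hy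
    rw [Finset.mem_inter, G.mem_neighborFinset]
    exact ⟨hy.2.symm, hy.1.1⟩
  have h7 : Y.card ≤ ∑ y ∈ Y, ((G.neighborFinset x \ Big) ∩ G.neighborFinset y).card := by
    rw [Finset.card_eq_sum_ones]
    exact Finset.sum_le_sum hcommon
  have h8 : b * ∑ z ∈ G.neighborFinset x \ Big, (G.neighborFinset z ∩ Low).card ≤
      (b - 2) * Low.card := by
    rw [Finset.mul_sum]
    calc ∑ z ∈ G.neighborFinset x \ Big, b * (G.neighborFinset z ∩ Low).card
        ≤ ∑ z ∈ G.neighborFinset x \ Big, Low.card := by
          refine Finset.sum_le_sum fun z hz => ?_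
          have hzB : z ∉ Big := (Finset.mem_sdiff.1 hz).2
          rw [memBig] at hzB
          omega
      _ = (G.neighborFinset x \ Big).card * Low.card := by rw [Finset.sum_const, smul_eq_mul]
      _ ≤ (b - 2) * Low.card := by
          refine Nat.mul_le_mul_right _ ?_
          calc (G.neighborFinset x \ Big).card ≤ (G.neighborFinset x).card :=
                Finset.card_le_card Finset.sdiff_subset
            _ = G.degree x := G.card_neighborFinset_eq_degree x
            _ ≤ b - 2 := by omega
  have h9 : b * Y.card ≤ (b - 2) * Low.card :=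
    le_trans (Nat.mul_le_mul_left _ (le_trans h7 hdc2)) h8
  have h10 : b * Low.card ≤ (b - 2) * Low.card + b * (b - 1) := by
    calc b * Low.card ≤ b * (Y.card + (G.degree x + 1)) := Nat.mul_le_mul_left _ hYcard
      _ = b * Y.card + b * (G.degree x + 1) := by ring
      _ ≤ (b - 2) * Low.card + b * (b - 1) :=
          Nat.add_le_add h9 (Nat.mul_le_mul_left _ (by omega))
  obtain ⟨c, rfl⟩ : ∃ c, b = c + 2 := ⟨b - 2, by omega⟩
  simp only [Nat.add_sub_cancel] at h10
  have h11 : c + 2 - 1 = c + 1 := by omega
  rw [h11] at h10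
  nlinarith

end Pool.Agent.Helper69.CB
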