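import Pool.Agent.Helper4.CB.EVT
import Pool.Agent.Helper4.CB.BH
import Pool.Agent.Helper30.CB.Rank

set_option autoImplicit false

namespace Pool.Agent.Helper69.CB

open Finset Pool.Agent.Helper4.CB

open Classical in
theorem exists_rank (D : ℕ) (C : ℝ) : ∃ (K Y0 : ℕ) (c : ℝ), ∀ (N : ℕ) (G : Type)
    [AddCommGroup G] (S : Sys N G), S.D = D → (∀ q, Y0 ≤ S.nm q) → S.Mert C → ∀ z : ℕ, 2 ≤ z →
    ∃ (rk : S.Q → ℕ) (R : ℕ), (∀ q ∈ S.le z, rk q < R) ∧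
      (R : ℝ) ≤ c * (1 + Real.log (Real.log z + 3)) ∧
      (∀ r, ∑ q ∈ (S.le z).filter (fun q => rk q = r), S.g q ≤ 1 / 16) ∧
      (∀ q, S.g q ≤ 1 / 2) ∧
      (∀ T : Finset S.Q, T ⊆ S.le z →
        (∀ r, (T.filter (fun q => rk q = r)).card ≤ 2 * r + 3) → ∏ q ∈ T, S.nm q ≤ z ^ K) := by
  obtain ⟨K, Y0, c, _, h⟩ := Pool.Agent.Helper30.CB.exists_rank D C
  exact ⟨K, Y0, c, h⟩

theorem exists_z1 (N : ℕ) (c : ℝ) : ∃ z1 : ℕ, ∀ z : ℕ, z1 ≤ z → ∀ R : ℕ,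
    (R : ℝ) ≤ c * (1 + Real.log (Real.log z + 3)) →
    Real.exp (3 / 16 * R) * 2 ^ (N + 1) / z ≤ 1 / 8 := by
  obtain ⟨z1, hz1, h⟩ := Pool.Agent.Helper30.CB.exists_z1 (max c 0) (le_max_right _ _) N
  refine ⟨z1, fun z hz R hR => ?_⟩
  have h0 : (0 : ℝ) ≤ 1 + Real.log (Real.log z + 3) := by
    have h1 : (0 : ℝ) ≤ Real.log z := Real.log_natCast_nonneg z
    have h2 : 0 ≤ Real.log (Real.log z + 3) := Real.log_nonneg (by linarith)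
    linarith
  have h1 := h z hz R (hR.trans (mul_le_mul_of_nonneg_right (le_max_left _ _) h0))
  rw [mul_div_assoc]
  exact h1

end Pool.Agent.Helper69.CB
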