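import Pool.Agent.Helper69.CB.Upper

/-! MP_e4665f_co: the construction is saturated; the main theorem. -/

set_option autoImplicit false

namespace Pool.Agent.Helper69.CB

open Finset SimpleGraph Pool.Agent.Helper28.RS

variable {q b ρ : ℕ}

theorem exists_inj {α : Type*} [DecidableEq α] (s : Finset α) (t : Finset ℕ)
    (h : s.card ≤ t.card) : ∃ g : α → ℕ, Set.InjOn g s ∧ ∀ a ∈ s, g a ∈ t := by
  obtain ⟨e⟩ := Function.Embedding.nonempty_of_card_le (α := s) (β := t) (by simpa using h)
  refine ⟨fun a => if ha : a ∈ s then (e ⟨a, ha⟩ : ℕ) else 0, ?_, ?_⟩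
  · intro a ha a' ha' h2
    have ha1 : a ∈ s := ha
    have ha2 : a' ∈ s := ha'
    simp only [dif_pos ha1, dif_pos ha2] at h2
    have h3 := e.injective (Subtype.ext h2)
    exact congrArg Subtype.val h3
  · intro a ha
    simp only [dif_pos ha]
    exact (e ⟨a, ha⟩).2

/-- the vertex of group `i` and position `p` -/
def vt (x0 : VV q b ρ) (i p : ℕ) : VV q b ρ :=
  if h : i < q ∧ p < b then Sum.inl (⟨i, h.1⟩, ⟨p, h.2⟩) else x0

theorem comp_vt (x0 : VV q b ρ) {i p : ℕ} (hi : i < q) (hp : p < b) : comp (vt x0 i p) = i := by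
  unfold vt
  rw [dif_pos ⟨hi, hp⟩]
  rfl

theorem pos_vt (x0 : VV q b ρ) {i p : ℕ} (hi : i < q) (hp : p < b) : pos (vt x0 i p) = p := by
  unfold vt
  rw [dif_pos ⟨hi, hp⟩]
  rfl

variable {k : ℕ} {H : SimpleGraph (Fin k)} {A : Finset (Fin k)} {w w' : Fin k}

theorem sat_aux (h : Cfg H A w w') (hb : b = k - A.card) (hρ : ρ ≤ q) {x y : VV q b ρ}
    (hxy : comp x ≠ comp y) (col : ℕ) (hc : (Nat.unpair col).1 ≠ comp y) :
    Rb H (GG q b ρ ⊔ SimpleGraph.fromEdgeSet {s(x, y)})
      (Function.update (cl q b ρ) s(x, y) col) := by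
  classical
  have hA : 0 < A.card := Finset.card_pos.2 ⟨w', h.w'A⟩
  have hsize := h.size
  have hb2 : 2 ≤ b := by omega
  have hne : x ≠ y := fun h2 => hxy (congrArg comp h2)
  -- positions for the vertices outside of `A`
  obtain ⟨PB, hPBw, hPBinj, hPBlt⟩ : ∃ PB : Fin k → ℕ, PB w = pos y ∧
      (∀ u v, u ∉ A → v ∉ A → PB u = PB v → u = v) ∧ ∀ v, v ∉ A → PB v < b := by
    obtain ⟨g, hg1, hg2⟩ := exists_inj (Aᶜ.erase w) ((range b).erase (pos y)) (by
      rw [Finset.card_erase_of_mem (Finset.mem_compl.2 h.wA),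
        Finset.card_erase_of_mem (Finset.mem_range.2 (pos_lt hb2 y)), Finset.card_compl,
        Fintype.card_fin, Finset.card_range, hb])
    have hg3 : ∀ v, v ∉ A → v ≠ w → g v < b ∧ g v ≠ pos y := by
      intro v hv hvw
      have := hg2 v (Finset.mem_erase.2 ⟨hvw, Finset.mem_compl.2 hv⟩)
      rw [Finset.mem_erase, Finset.mem_range] at this
      exact ⟨this.2, this.1⟩
    refine ⟨Function.update g w (pos y), Function.update_self _ _ _, ?_, ?_⟩
    · intro u v hu hv huv
      by_cases hu1 : u = w <;> by_cases hv1 : v = w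
      · rw [hu1, hv1]
      · rw [hu1, Function.update_self, Function.update_of_ne hv1] at huv
        exact absurd huv.symm (hg3 v hv hv1).2
      · rw [hv1, Function.update_self, Function.update_of_ne hu1] at huv
        exact absurd huv (hg3 u hu hu1).2
      · rw [Function.update_of_ne hu1, Function.update_of_ne hv1] at huv
        refine hg1 ?_ ?_ huv
        · rw [Finset.mem_coe, Finset.mem_erase, Finset.mem_compl]
          exact ⟨hu1, hu⟩
        · rw [Finset.mem_coe, Finset.mem_erase, Finset.mem_compl]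
          exact ⟨hv1, hv⟩
    · intro v hv
      by_cases hv1 : v = w
      · rw [hv1, Function.update_self]
        exact pos_lt hb2 y
      · rw [Function.update_of_ne hv1]
        exact (hg3 v hv hv1).1
  -- positions for the vertices of `A`
  set m1 : ℕ := (Nat.unpair (Nat.unpair col).2).1 with hm1
  set m2 : ℕ := (Nat.unpair (Nat.unpair col).2).2 with hm2
  set p : ℕ := if m1 = pos x then m2 else m1 with hp
  obtain ⟨PA, hPAw, hPAinj, hPAlt, hPAp⟩ : ∃ PA : Fin k → ℕ, PA w' = pos x ∧
      (∀ u v, u ∈ A → v ∈ A → PA u = PA v → u = v) ∧ (∀ v, v ∈ A → PA v < b) ∧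
      ∀ v, v ∈ A → v ≠ w' → PA v ≠ p := by
    obtain ⟨g, hg1, hg2⟩ := exists_inj (A.erase w') (((range b).erase (pos x)).erase p) (by
      rw [Finset.card_erase_of_mem h.w'A]
      have e1 : ((range b).erase (pos x)).card = b - 1 := by
        rw [Finset.card_erase_of_mem (Finset.mem_range.2 (pos_lt hb2 x)), Finset.card_range]
      have e2 := Finset.pred_card_le_card_erase (s := (range b).erase (pos x)) (a := p)
      omega)
    have hg3 : ∀ v, v ∈ A → v ≠ w' → g v < b ∧ g v ≠ pos x ∧ g v ≠ p := by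
      intro v hv hvw
      have := hg2 v (Finset.mem_erase.2 ⟨hvw, hv⟩)
      rw [Finset.mem_erase, Finset.mem_erase, Finset.mem_range] at this
      exact ⟨this.2.2, this.2.1, this.1⟩
    refine ⟨Function.update g w' (pos x), Function.update_self _ _ _, ?_, ?_, ?_⟩
    · intro u v hu hv huv
      by_cases hu1 : u = w' <;> by_cases hv1 : v = w'
      · rw [hu1, hv1]
      · rw [hu1, Function.update_self, Function.update_of_ne hv1] at huv
        exact absurd huv.symm (hg3 v hv hv1).2.1
      · rw [hv1, Function.update_self, Function.update_of_ne hu1] at huv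
        exact absurd huv (hg3 u hu hu1).2.1
      · rw [Function.update_of_ne hu1, Function.update_of_ne hv1] at huv
        refine hg1 ?_ ?_ huv
        · rw [Finset.mem_coe, Finset.mem_erase]
          exact ⟨hu1, hu⟩
        · rw [Finset.mem_coe, Finset.mem_erase]
          exact ⟨hv1, hv⟩
    · intro v hv
      by_cases hv1 : v = w'
      · rw [hv1, Function.update_self]
        exact pos_lt hb2 x
      · rw [Function.update_of_ne hv1]
        exact (hg3 v hv hv1).1
    · intro v hv hv1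
      rw [Function.update_of_ne hv1]
      exact (hg3 v hv hv1).2.2
  -- the colours used in the group of `x` are not `col`
  have hcolA : ∀ u v, u ∈ A → v ∈ A → u ≠ v →
      Nat.pair (comp x) (enc (PA u) (PA v)) ≠ col := by
    intro u v hu hv huv he
    have hPne : PA u ≠ PA v := fun h2 => huv (hPAinj u v hu hv h2)
    rw [enc_of_ne hPne] at he
    have e1 : m1 = min (PA u) (PA v) := by
      rw [hm1, ← he, Nat.unpair_pair, Nat.unpair_pair]
    have e2 : m2 = max (PA u) (PA v) := by
      rw [hm2, ← he, Nat.unpair_pair, Nat.unpair_pair]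
    have e3 : (PA u = m1 ∧ PA v = m2) ∨ (PA u = m2 ∧ PA v = m1) := by omega
    have key : ∀ u v, u ∈ A → v ∈ A → u ≠ v → PA u = m1 → PA v = m2 → False := by
      intro u v hu hv huv h1 h2
      by_cases hx : m1 = pos x
      · have e4 : u = w' := hPAinj u w' hu h.w'A (by rw [h1, hPAw, hx])
        refine hPAp v hv (fun h3 => huv (e4.trans h3.symm)) ?_
        rw [hp, if_pos hx, h2]
      · refine hPAp u hu (fun h3 => hx ?_) ?_
        · rw [← h1, h3, hPAw]
        · rw [hp, if_neg hx, h1]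
    rcases e3 with ⟨h1, h2⟩ | ⟨h1, h2⟩
    · exact key u v hu hv huv h1 h2
    · exact key v u hv hu huv.symm h2 h1
  -- the embedding
  set f : Fin k → VV q b ρ := fun v =>
    if v ∈ A then (if v = w' then x else vt x (comp x) (PA v))
    else (if v = w then y else vt x (comp y) (PB v)) with hf
  have fA : ∀ v, v ∈ A → comp (f v) = comp x ∧ pos (f v) = PA v := by
    intro v hv
    by_cases hv1 : v = w'
    · subst hv1
      simp only [hf, if_pos hv, if_true]
      exact ⟨trivial, hPAw.symm⟩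
    · simp only [hf, if_pos hv, if_neg hv1]
      exact ⟨comp_vt x (comp_lt hρ x) (hPAlt v hv), pos_vt x (comp_lt hρ x) (hPAlt v hv)⟩
  have fB : ∀ v, v ∉ A → comp (f v) = comp y ∧ pos (f v) = PB v := by
    intro v hv
    by_cases hv1 : v = w
    · subst hv1
      simp only [hf, if_neg hv, if_true]
      exact ⟨trivial, hPBw.symm⟩
    · simp only [hf, if_neg hv, if_neg hv1]
      exact ⟨comp_vt x (comp_lt hρ y) (hPBlt v hv), pos_vt x (comp_lt hρ y) (hPBlt v hv)⟩
  have fw' : f w' = x := by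
    simp only [hf, if_pos h.w'A, if_true]
  have fw : f w = y := by
    simp only [hf, if_neg h.wA, if_true]
  have finj : Function.Injective f := by
    intro u v huv
    by_cases hu : u ∈ A <;> by_cases hv : v ∈ A
    · refine hPAinj u v hu hv ?_
      rw [← (fA u hu).2, ← (fA v hv).2, huv]
    · exfalso
      apply hxy
      rw [← (fA u hu).1, ← (fB v hv).1, huv]
    · exfalso
      apply hxy
      rw [← (fA v hv).1, ← (fB u hu).1, huv]
    · refine hPBinj u v hu hv ?_
      rw [← (fB u hu).2, ← (fB v hv).2, huv]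
  -- the kinds of edges
  have kinds : ∀ e ∈ H.edgeSet,
      (∃ u v, u ∈ A ∧ v ∈ A ∧ u ≠ v ∧ e = s(u, v) ∧ Sym2.map f e ≠ s(x, y)) ∨
      (∃ u v, u ∉ A ∧ v ∉ A ∧ u ≠ v ∧ e = s(u, v) ∧ Sym2.map f e ≠ s(x, y)) ∨
      e = s(w', w) := by
    intro e he
    induction e using Sym2.ind with
    | h u v =>
      have huv : H.Adj u v := he
      by_cases hu : u ∈ A <;> by_cases hv : v ∈ A
      · refine Or.inl ⟨u, v, hu, hv, huv.ne, rfl, fun h2 => ?_⟩
        rw [Sym2.map_mk, Sym2.eq_iff] at h2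
        rcases h2 with ⟨_, h3⟩ | ⟨h3, _⟩
        · exact hxy (by rw [← (fA v hv).1, h3])
        · exact hxy (by rw [← (fA u hu).1, h3])
      · obtain ⟨h1, h2⟩ := h.cut u v hu hv huv
        rw [h1, h2]
        exact Or.inr (Or.inr rfl)
      · obtain ⟨h1, h2⟩ := h.cut v u hv hu huv.symm
        rw [h1, h2]
        exact Or.inr (Or.inr Sym2.eq_swap)
      · refine Or.inr (Or.inl ⟨u, v, hu, hv, huv.ne, rfl, fun h2 => ?_⟩)
        rw [Sym2.map_mk, Sym2.eq_iff] at h2
        rcases h2 with ⟨h3, _⟩ | ⟨_, h3⟩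
        · exact hxy (by rw [← (fB u hu).1, h3])
        · exact hxy (by rw [← (fB v hv).1, h3])
  -- the colours
  set χ' := Function.update (cl q b ρ) s(x, y) col with hχ'
  have colA : ∀ u v, u ∈ A → v ∈ A → Sym2.map f s(u, v) ≠ s(x, y) →
      χ' (Sym2.map f s(u, v)) = Nat.pair (comp x) (enc (PA u) (PA v)) := by
    intro u v hu hv h2
    rw [hχ', Function.update_of_ne h2, Sym2.map_mk, cl_mk, (fA u hu).1, (fA v hv).1,
      (fA u hu).2, (fA v hv).2, min_self]
  have colB : ∀ u v, u ∉ A → v ∉ A → Sym2.map f s(u, v) ≠ s(x, y) →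
      χ' (Sym2.map f s(u, v)) = Nat.pair (comp y) (enc (PB u) (PB v)) := by
    intro u v hu hv h2
    rw [hχ', Function.update_of_ne h2, Sym2.map_mk, cl_mk, (fB u hu).1, (fB v hv).1,
      (fB u hu).2, (fB v hv).2, min_self]
  have colC : χ' (Sym2.map f s(w', w)) = col := by
    rw [Sym2.map_mk, fw', fw, hχ', Function.update_self]
  have hcolB : ∀ u v, Nat.pair (comp y) (enc (PB u) (PB v)) ≠ col := by
    intro u v he
    apply hc
    rw [← he, Nat.unpair_pair]
  refine ⟨f, finj, ?_, ?_⟩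
  · intro u v huv
    rw [adj_sup_edge hne]
    rcases kinds s(u, v) huv with ⟨u', v', hu, hv, _, he, h2⟩ | ⟨u', v', hu, hv, _, he, h2⟩ | he
    · left
      refine ⟨finj.ne huv.ne, ?_⟩
      have e1 : u ∈ A ∧ v ∈ A := by
        rw [Sym2.eq_iff] at he
        rcases he with ⟨rfl, rfl⟩ | ⟨rfl, rfl⟩
        · exact ⟨hu, hv⟩
        · exact ⟨hv, hu⟩
      rw [(fA u e1.1).1, (fA v e1.2).1]
    · left
      refine ⟨finj.ne huv.ne, ?_⟩
      have e1 : u ∉ A ∧ v ∉ A := by
        rw [Sym2.eq_iff] at he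
        rcases he with ⟨rfl, rfl⟩ | ⟨rfl, rfl⟩
        · exact ⟨hu, hv⟩
        · exact ⟨hv, hu⟩
      rw [(fB u e1.1).1, (fB v e1.2).1]
    · right
      have e1 := congrArg (Sym2.map f) he
      rw [Sym2.map_mk, Sym2.map_mk, fw', fw] at e1
      exact e1
  · intro e₁ h₁ e₂ h₂ heq
    rcases kinds e₁ h₁ with ⟨u, v, hu, hv, huv, rfl, h2⟩ | ⟨u, v, hu, hv, huv, rfl, h2⟩ | rfl <;>
      rcases kinds e₂ h₂ with ⟨u', v', hu', hv', huv', rfl, h2'⟩ |
        ⟨u', v', hu', hv', huv', rfl, h2'⟩ | rfl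
    · rw [colA u v hu hv h2, colA u' v' hu' hv' h2', Nat.pair_eq_pair] at heq
      have e1 := enc_inj (fun h3 => huv (hPAinj u v hu hv h3))
        (fun h3 => huv' (hPAinj u' v' hu' hv' h3)) heq.2
      rw [Sym2.eq_iff] at e1 ⊢
      rcases e1 with ⟨e1, e2⟩ | ⟨e1, e2⟩
      · exact Or.inl ⟨hPAinj _ _ hu hu' e1, hPAinj _ _ hv hv' e2⟩
      · exact Or.inr ⟨hPAinj _ _ hu hv' e1, hPAinj _ _ hv hu' e2⟩
    · rw [colA u v hu hv h2, colB u' v' hu' hv' h2', Nat.pair_eq_pair] at heq
      exact absurd heq.1 hxy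
    · rw [colA u v hu hv h2, colC] at heq
      exact absurd heq (hcolA u v hu hv huv)
    · rw [colB u v hu hv h2, colA u' v' hu' hv' h2', Nat.pair_eq_pair] at heq
      exact absurd heq.1.symm hxy
    · rw [colB u v hu hv h2, colB u' v' hu' hv' h2', Nat.pair_eq_pair] at heq
      have e1 := enc_inj (fun h3 => huv (hPBinj u v hu hv h3))
        (fun h3 => huv' (hPBinj u' v' hu' hv' h3)) heq.2
      rw [Sym2.eq_iff] at e1 ⊢
      rcases e1 with ⟨e1, e2⟩ | ⟨e1, e2⟩
      · exact Or.inl ⟨hPBinj _ _ hu hu' e1, hPBinj _ _ hv hv' e2⟩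
      · exact Or.inr ⟨hPBinj _ _ hu hv' e1, hPBinj _ _ hv hu' e2⟩
    · rw [colB u v hu hv h2, colC] at heq
      exact absurd heq (hcolB u v)
    · rw [colA u' v' hu' hv' h2', colC] at heq
      exact absurd heq.symm (hcolA u' v' hu' hv' huv')
    · rw [colB u' v' hu' hv' h2', colC] at heq
      exact absurd heq.symm (hcolB u' v')
    · rfl

/-- The construction is saturated. -/
theorem sat (h : Cfg H A w w') (hb : b = k - A.card) (hρ : ρ ≤ q) :
    Sat H (GG q b ρ) (cl q b ρ) := by
  refine ⟨not_rb h hb, ?_⟩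
  intro x y hxy hadj col
  have hcomp : comp x ≠ comp y := fun h2 => hadj ⟨hxy, h2⟩
  by_cases hc : (Nat.unpair col).1 = comp y
  · have h1 := sat_aux h hb hρ hcomp.symm col (fun h2 => hcomp (h2.symm.trans hc))
    rw [Sym2.eq_swap] at h1
    convert h1 using 2
  · exact sat_aux h hb hρ hcomp col hc

/-- Both bounds, in integers. -/
theorem main_nat (h : Cfg H A w w') (ht : Tri H A w) : ∃ C : ℕ, ∀ n : ℕ,
    (k - A.card - 1) * n ≤ 2 * rsat H n + C ∧ 2 * rsat H n ≤ (k - A.card - 1) * n + C := by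
  classical
  obtain ⟨b, hb⟩ : ∃ b, b = k - A.card := ⟨_, rfl⟩
  have hA : 0 < A.card := Finset.card_pos.2 ⟨w', h.w'A⟩
  have hsize := h.size
  have hb2 : 2 ≤ b := by omega
  have hne : H.edgeSet.Nonempty := ⟨s(w, w'), h.adj⟩
  refine ⟨(b - 1) * b ^ 2 + b * (b + 1) + 2 * (Finset.range (b * b)).sup (rsat H), fun n => ?_⟩
  rw [← hb]
  constructor
  · obtain ⟨m, hm⟩ := exists_good hne n
    obtain ⟨G, χ, h1, h2⟩ := rsat_mem hm
    have h3 := lower h ht h2
    rw [← hb, h1, Fintype.card_fin] at h3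
    omega
  · by_cases hn : n < b * b
    · have h1 : rsat H n ≤ (Finset.range (b * b)).sup (rsat H) :=
        Finset.le_sup (f := rsat H) (Finset.mem_range.2 hn)
      omega
    · push Not at hn
      have hq : b ≤ n / b := (Nat.le_div_iff_mul_le (by omega)).2 hn
      have hr : n % b < b := Nat.mod_lt _ (by omega)
      have h1 := (sat (q := n / b) (ρ := n % b) h hb (by omega)).good
      have h2 : Fintype.card (VV (n / b) b (n % b)) = n := by
        rw [Fintype.card_sum, Fintype.card_prod, Fintype.card_fin, Fintype.card_fin,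
          Fintype.card_fin, mul_comm]
        exact Nat.div_add_mod n b
      rw [h2] at h1
      have h3 := h1.rsat_le
      have h4 := edge_count (q := n / b) (b := b) (ρ := n % b) hb2
      have h5 : n / b * b + n % b = n := by
        rw [mul_comm]
        exact Nat.div_add_mod n b
      rw [h5] at h4
      have h6 : n % b * (b + 1) ≤ b * (b + 1) := Nat.mul_le_mul_right _ hr.le
      omega

end Pool.Agent.Helper69.CB
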