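import Pool.Agent.Helper4.CB.EVT
import Pool.Agent.Helper4.CB.BH
import Pool.Agent.Helper30.CB.Rank

/-!
# CB, piece SIFT: assembly
-/

set_option autoImplicit false

namespace Pool.Agent.Helper69.CB

open Finset Pool.Agent.Helper4.CB Pool.Agent.Helper30.CB

open Classical in
theorem sift (N D : ℕ) (C : ℝ) : ∃ K Y0 z1 : ℕ, ∀ (G : Type) [AddCommGroup G] (S : Sys N G),
    S.D = D → (∀ q, Y0 ≤ S.nm q) → S.Mert C → ∀ z : ℕ, z1 ≤ z →
    ∀ (Λ : AddSubgroup G) (ρ X : ℕ) (τ x0 : G), Λ.index ≠ 0 →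
      (∀ T : Finset S.Q, T ⊆ S.le z → Λ ⊔ T.inf S.Γ = ⊤) → Rad S.e Λ ρ →
      z ^ K * (ρ + 1) ≤ X →
      |(((bx S.e τ X).filter (fun g => g - x0 ∈ Λ ∧ ∀ q ∈ S.le z, g ∉ S.E q)).card : ℝ) -
          (X : ℝ) ^ N / Λ.index * S.V z| ≤ 1 / 4 * ((X : ℝ) ^ N / Λ.index * S.V z) := by
  obtain ⟨K, Y0, c, hc, hK⟩ := exists_rank D C
  obtain ⟨z1, hz12, hz1⟩ := exists_z1 c hc N
  refine ⟨K + 1, Y0, z1, ?_⟩
  intro G _ S hD hY hM z hz Λ ρ X τ x0 hΛ hco hrad hX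
  have hz2 : 2 ≤ z := hz12.trans hz
  obtain ⟨rk, R, hrk, hR, hsum, hhalf, hlev⟩ := hK N G S hD hY hM z hz2
  have hz0 : (0 : ℝ) < z := by
    have : 0 < z := by omega
    exact_mod_cast this
  have hX0 : 0 < X := by
    refine lt_of_lt_of_le ?_ hX
    positivity
  have hXr : (0 : ℝ) < X := by exact_mod_cast hX0
  have hsmall := hz1 z hz R hR
  have hidx : (0 : ℝ) < Λ.index := by exact_mod_cast Nat.pos_of_ne_zero hΛ
  have hmain := bh ((bx S.e τ X).filter (fun g => g - x0 ∈ Λ)) (S.le z) (fun q g => g ∈ S.E q)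
    rk S.g R (1 / 16) (2 ^ (N + 1) / z) ((X : ℝ) ^ N / Λ.index)
    (fun q _ => S.g_nonneg q) (fun q _ => hhalf q) hrk (by norm_num) le_rfl hsum (by positivity)
    (by positivity) ?_
  · have e1 : ((bx S.e τ X).filter (fun g => g - x0 ∈ Λ)).filter
        (fun g => ∀ q ∈ S.le z, ¬ g ∈ S.E q) =
        (bx S.e τ X).filter (fun g => g - x0 ∈ Λ ∧ ∀ q ∈ S.le z, g ∉ S.E q) := by
      rw [filter_filter]
    rw [e1] at hmain
    have hV : 0 ≤ (X : ℝ) ^ N / Λ.index * S.V z := by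
      refine mul_nonneg (by positivity) ?_
      unfold Sys.V
      exact prod_nonneg fun q _ => by linarith [hhalf q]
    refine hmain.trans ?_
    refine mul_le_mul_of_nonneg_right ?_ hV
    have h1 : Real.exp (3 * (1 / 16) * R) * (2 ^ (N + 1) / z) =
        Real.exp (3 / 16 * R) * (2 ^ (N + 1) / z) := by
      rw [show (3 : ℝ) * (1 / 16) = 3 / 16 by norm_num]
    rw [h1]
    norm_num at hsmall ⊢
    linarith
  · intro T hT hcard
    have hlevT := hlev T hT hcard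
    have hcop := hco T hT
    have hρ' := rad_inf S hrad T
    have h2 : (∏ q ∈ T, S.nm q) * (ρ + 1) ≤ z ^ K * (ρ + 1) := Nat.mul_le_mul_right _ hlevT
    have h3 : 2 * ((∏ q ∈ T, S.nm q) * (ρ + 1)) ≤ X := by
      calc 2 * ((∏ q ∈ T, S.nm q) * (ρ + 1)) ≤ z * (z ^ K * (ρ + 1)) := Nat.mul_le_mul hz2 h2
        _ = z ^ (K + 1) * (ρ + 1) := by ring
        _ ≤ X := hX
    have h4 := count_events S T Λ hΛ hcop hρ' h3 hX0 τ x0
    rw [filter_filter]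
    refine h4.trans ?_
    have hgT : 0 ≤ (X : ℝ) ^ N / Λ.index * ∏ q ∈ T, S.g q :=
      mul_nonneg (by positivity) (prod_nonneg fun q _ => S.g_nonneg q)
    refine mul_le_mul_of_nonneg_right ?_ hgT
    have h5 : z * ((∏ q ∈ T, S.nm q) * (ρ + 1)) ≤ X := by
      calc z * ((∏ q ∈ T, S.nm q) * (ρ + 1)) ≤ z * (z ^ K * (ρ + 1)) := Nat.mul_le_mul_left _ h2
        _ = z ^ (K + 1) * (ρ + 1) := by ring
        _ ≤ X := hX
    have h6 : (z : ℝ) * (((∏ q ∈ T, S.nm q) * (ρ + 1) : ℕ) : ℝ) ≤ X := by exact_mod_cast h5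
    rw [pow_succ, mul_div_assoc (2 ^ N : ℝ)]
    refine mul_le_mul_of_nonneg_left ?_ (by positivity)
    rw [div_le_div_iff₀ hXr hz0]
    nlinarith

end Pool.Agent.Helper69.CB
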