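import Pool.Agent.Helper69.CB.Low
import Pool.Agent.Helper28.RS.Defs

/-! MP_e4665f_co: the lower bound. -/

set_option autoImplicit false

namespace Pool.Agent.Helper69.CB

open Finset SimpleGraph Pool.Agent.Helper28.RS

variable {k : ℕ} {H : SimpleGraph (Fin k)}

/-- The configuration: `H` is connected, the only edge between `A` and the other vertices is
`w' w`, and `w` is adjacent to all other vertices outside of `A`, which are more than the
vertices of `A`. -/
structure Cfg (H : SimpleGraph (Fin k)) (A : Finset (Fin k)) (w w' : Fin k) : Prop where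
  conn : H.Connected
  w'A : w' ∈ A
  wA : w ∉ A
  adj : H.Adj w w'
  cut : ∀ u v, u ∈ A → v ∉ A → H.Adj u v → u = w' ∧ v = w
  cone : ∀ v, v ∉ A → v ≠ w → H.Adj w v
  size : 2 * A.card < k

/-- The condition on the edges which do not contain `w`. -/
def Tri (H : SimpleGraph (Fin k)) (A : Finset (Fin k)) (w : Fin k) : Prop :=
  ∀ u v, H.Adj u v → u ≠ w → v ≠ w → (H.commonNeighbors u v).Nonempty ∧
    k - A.card ≤ (H.neighborSet u).ncard + (H.commonNeighbors u v).ncard + 2

variable {A : Finset (Fin k)} {w w' : Fin k}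

theorem Cfg.deg_w (h : Cfg H A w w') : k - A.card ≤ (H.neighborSet w).ncard := by
  classical
  have h1 : ((Aᶜ.erase w ∪ {w'} : Finset (Fin k)) : Set (Fin k)) ⊆ H.neighborSet w := by
    intro v hv
    rw [Finset.mem_coe, Finset.mem_union, Finset.mem_erase, Finset.mem_compl,
      Finset.mem_singleton] at hv
    rcases hv with ⟨hv1, hv2⟩ | rfl
    · exact h.cone v hv2 hv1
    · exact h.adj
  have h2 := Set.ncard_le_ncard h1 (Set.toFinite _)
  rw [Set.ncard_coe_finset, Finset.card_union_of_disjoint, Finset.card_erase_of_mem,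
    Finset.card_singleton, Finset.card_compl, Fintype.card_fin] at h2
  · have h3 := h.size
    omega
  · exact Finset.mem_compl.2 h.wA
  · rw [Finset.disjoint_singleton_right, Finset.mem_erase, Finset.mem_compl]
    exact fun h3 => h3.2 h.w'A

variable {V : Type*} [DecidableEq V] {G : SimpleGraph V} {χ : Sym2 V → ℕ}

theorem new_copy (hs : Sat H G χ) {x y : V} (hxy : x ≠ y) (hadj : ¬ G.Adj x y) (col : ℕ) :
    ∃ (f : Fin k → V) (u v : Fin k),
      IsRb H (G ⊔ SimpleGraph.fromEdgeSet {s(x, y)}) (Function.update χ s(x, y) col) f ∧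
        H.Adj u v ∧ f u = x ∧ f v = y := by
  obtain ⟨f, hf⟩ := hs.2 x y hxy hadj col
  by_cases hcase : ∃ e ∈ H.edgeSet, Sym2.map f e = s(x, y)
  · obtain ⟨e, he, hef⟩ := hcase
    induction e using Sym2.ind with
    | h u v =>
      rw [Sym2.map_mk, Sym2.eq_iff] at hef
      rcases hef with ⟨h1, h2⟩ | ⟨h1, h2⟩
      · exact ⟨f, u, v, hf, he, h1, h2⟩
      · exact ⟨f, v, u, hf, (H.mem_edgeSet.1 he).symm, h2, h1⟩
  · push Not at hcase
    exfalso
    apply hs.1
    refine ⟨f, hf.1, ?_, ?_⟩
    · intro u v huv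
      have h1 := (adj_sup_edge hxy).1 (hf.2.1 u v huv)
      rcases h1 with h1 | h1
      · exact h1
      · exact absurd h1 (hcase s(u, v) huv)
    · intro e₁ h₁ e₂ h₂ h
      refine hf.2.2 e₁ h₁ e₂ h₂ ?_
      rw [Function.update_of_ne (hcase e₁ h₁), Function.update_of_ne (hcase e₂ h₂), h]

section Lower

variable {x y : V} {f : Fin k → V} {col : ℕ}

theorem adj_of_ne (hxy : x ≠ y) {u v p : Fin k}
    (hf : IsRb H (G ⊔ SimpleGraph.fromEdgeSet {s(x, y)}) (Function.update χ s(x, y) col) f)
    (hu : f u = x) (hv : f v = y) (hp : H.Adj u p) (hpv : p ≠ v) : G.Adj x (f p) := by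
  have h1 := (adj_sup_edge hxy).1 (hf.2.1 u p hp)
  rw [hu] at h1
  rcases h1 with h1 | h1
  · exact h1
  · exfalso
    rw [Sym2.eq_iff] at h1
    rcases h1 with ⟨_, h2⟩ | ⟨h2, _⟩
    · exact hpv (hf.1 (h2.trans hv.symm))
    · exact hxy h2

theorem adj_of_ne' (hxy : x ≠ y) {u v p : Fin k}
    (hf : IsRb H (G ⊔ SimpleGraph.fromEdgeSet {s(x, y)}) (Function.update χ s(x, y) col) f)
    (hu : f u = x) (hv : f v = y) (hp : H.Adj v p) (hpu : p ≠ u) : G.Adj y (f p) := by
  have h1 := (adj_sup_edge hxy).1 (hf.2.1 v p hp)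
  rw [hv] at h1
  rcases h1 with h1 | h1
  · exact h1
  · exfalso
    rw [Sym2.eq_iff] at h1
    rcases h1 with ⟨h2, _⟩ | ⟨_, h2⟩
    · exact hxy h2.symm
    · exact hpu (hf.1 (h2.trans hu.symm))

theorem ne_of_col (hxy : x ≠ y) {u v p : Fin k} {z : V} (hzy : z ≠ y)
    (hf : IsRb H (G ⊔ SimpleGraph.fromEdgeSet {s(x, y)})
      (Function.update χ s(x, y) (χ s(x, z))) f)
    (hu : f u = x) (hv : f v = y) (huv : H.Adj u v) (hp : H.Adj u p) (hpv : p ≠ v) : f p ≠ z := by
  intro hpz
  have h1 : s(u, p) = s(u, v) := by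
    refine hf.2.2 _ hp _ huv ?_
    rw [Sym2.map_mk, Sym2.map_mk, hu, hv, hpz, Function.update_self, Function.update_of_ne]
    intro h2
    rw [Sym2.eq_iff] at h2
    rcases h2 with ⟨_, h2⟩ | ⟨h2, _⟩
    · exact hzy h2
    · exact hxy h2
  rw [Sym2.eq_iff] at h1
  rcases h1 with ⟨_, h2⟩ | ⟨h2, h3⟩
  · exact hpv h2
  · exact hpv (h3.trans h2)

end Lower

variable [Fintype V] [DecidableRel G.Adj]

/-- the vertices of small degree do not play the role of `w` -/
theorem ne_w (h : Cfg H A w w') {x y : V} (hxy : x ≠ y) {f : Fin k → V} {col : ℕ} {u v : Fin k}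
    (hf : IsRb H (G ⊔ SimpleGraph.fromEdgeSet {s(x, y)}) (Function.update χ s(x, y) col) f)
    (hu : f u = x) (hv : f v = y) (hx : G.degree x + 2 ≤ k - A.card) : u ≠ w := by
  classical
  rintro rfl
  have h1 := h.deg_w
  have h2 : (H.neighborSet u).ncard ≤ (insert y (G.neighborFinset x)).card := by
    rw [← Set.ncard_coe_finset]
    refine Set.ncard_le_ncard_of_injOn f ?_ (hf.1.injOn) (Set.toFinite _)
    intro p hp
    by_cases hpv : p = v
    · subst hpv
      simp [hv]
    · have := adj_of_ne hxy hf hu hv hp hpv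
      simp [this]
  have h3 : (insert y (G.neighborFinset x)).card ≤ G.degree x + 1 := by
    rw [← G.card_neighborFinset_eq_degree]
    exact Finset.card_insert_le _ _
  omega

theorem ne_w' (h : Cfg H A w w') {x y : V} (hxy : x ≠ y) {f : Fin k → V} {col : ℕ} {u v : Fin k}
    (hf : IsRb H (G ⊔ SimpleGraph.fromEdgeSet {s(x, y)}) (Function.update χ s(x, y) col) f)
    (hu : f u = x) (hv : f v = y) (hy : G.degree y + 2 ≤ k - A.card) : v ≠ w := by
  classical
  rintro rfl
  have h1 := h.deg_w
  have h2 : (H.neighborSet v).ncard ≤ (insert x (G.neighborFinset y)).card := by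
    rw [← Set.ncard_coe_finset]
    refine Set.ncard_le_ncard_of_injOn f ?_ (hf.1.injOn) (Set.toFinite _)
    intro p hp
    by_cases hpv : p = u
    · subst hpv
      simp [hu]
    · have := adj_of_ne' hxy hf hu hv hp hpv
      simp [this]
  have h3 : (insert x (G.neighborFinset y)).card ≤ G.degree y + 1 := by
    rw [← G.card_neighborFinset_eq_degree]
    exact Finset.card_insert_le _ _
  omega

/-- The degree condition of `low_count`. -/
theorem deg_cond (h : Cfg H A w w') (ht : Tri H A w) (hs : Sat H G χ) {x y : V} (hxy : x ≠ y)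
    (hadj : ¬ G.Adj x y) (hx : G.degree x + 2 ≤ k - A.card) (hy : G.degree y + 2 ≤ k - A.card) :
    k - A.card ≤ G.degree x + (G.neighborFinset x ∩ G.neighborFinset y).card + 1 := by
  classical
  -- a common neighbour
  obtain ⟨z, hzx, hzy⟩ : ∃ z, G.Adj x z ∧ G.Adj y z := by
    obtain ⟨f, u, v, hf, huv, hu, hv⟩ := new_copy hs hxy hadj 0
    obtain ⟨⟨p, hp1, hp2⟩, _⟩ := ht u v huv (ne_w h hxy hf hu hv hx) (ne_w' h hxy hf hu hv hy)
    refine ⟨f p, adj_of_ne hxy hf hu hv hp1 ?_, adj_of_ne' hxy hf hu hv hp2 ?_⟩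
    · rintro rfl
      exact H.irrefl hp2
    · rintro rfl
      exact H.irrefl hp1
  obtain ⟨f, u, v, hf, huv, hu, hv⟩ := new_copy hs hxy hadj (χ s(x, z))
  obtain ⟨_, hT⟩ := ht u v huv (ne_w h hxy hf hu hv hx) (ne_w' h hxy hf hu hv hy)
  have hzy' : z ≠ y := fun h2 => G.irrefl (h2 ▸ hzy)
  have h1 : (H.neighborSet u).ncard ≤ G.degree x := by
    have e1 : (H.neighborSet u \ {v}).ncard ≤ ((G.neighborFinset x).erase z).card := by
      rw [← Set.ncard_coe_finset]
      refine Set.ncard_le_ncard_of_injOn f ?_ (hf.1.injOn) (Set.toFinite _)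
      intro p hp
      have hpv : p ≠ v := hp.2
      rw [Finset.coe_erase, Set.mem_sdiff, Set.mem_singleton_iff, Finset.mem_coe,
        G.mem_neighborFinset]
      exact ⟨adj_of_ne hxy hf hu hv hp.1 hpv, ne_of_col hxy hzy' hf hu hv huv hp.1 hpv⟩
    have e2 : (H.neighborSet u \ {v}).ncard + 1 = (H.neighborSet u).ncard :=
      Set.ncard_sdiff_singleton_add_one huv (Set.toFinite _)
    have e3 : ((G.neighborFinset x).erase z).card + 1 = (G.neighborFinset x).card :=
      Finset.card_erase_add_one (by simpa using hzx)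
    rw [G.card_neighborFinset_eq_degree] at e3
    omega
  have h2 : (H.commonNeighbors u v).ncard + 1 ≤
      (G.neighborFinset x ∩ G.neighborFinset y).card := by
    have e1 : (H.commonNeighbors u v).ncard ≤
        ((G.neighborFinset x ∩ G.neighborFinset y).erase z).card := by
      rw [← Set.ncard_coe_finset]
      refine Set.ncard_le_ncard_of_injOn f ?_ (hf.1.injOn) (Set.toFinite _)
      rintro p ⟨hp1, hp2⟩
      have hpv : p ≠ v := by
        rintro rfl
        exact H.irrefl hp2
      have hpu : p ≠ u := by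
        rintro rfl
        exact H.irrefl hp1
      rw [Finset.coe_erase, Set.mem_sdiff, Set.mem_singleton_iff, Finset.mem_coe,
        Finset.mem_inter, G.mem_neighborFinset, G.mem_neighborFinset]
      exact ⟨⟨adj_of_ne hxy hf hu hv hp1 hpv, adj_of_ne' hxy hf hu hv hp2 hpu⟩,
        ne_of_col hxy hzy' hf hu hv huv hp1 hpv⟩
    have e3 : ((G.neighborFinset x ∩ G.neighborFinset y).erase z).card + 1 =
        (G.neighborFinset x ∩ G.neighborFinset y).card :=
      Finset.card_erase_add_one (by simp [hzx, hzy])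
    omega
  omega

/-- The lower bound. -/
theorem lower (h : Cfg H A w w') (ht : Tri H A w) (hs : Sat H G χ) :
    (k - A.card - 1) * Fintype.card V ≤
      2 * G.edgeSet.ncard + (k - A.card - 1) * (k - A.card) ^ 2 := by
  have hb : 2 ≤ k - A.card := by
    have h1 := h.size
    have h2 : 0 < A.card := Finset.card_pos.2 ⟨w', h.w'A⟩
    omega
  have h1 := low_count G (k - A.card) hb fun x y hxy hadj hx hy => deg_cond h ht hs hxy hadj hx hy
  rw [← SimpleGraph.coe_edgeFinset, Set.ncard_coe_finset]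
  exact h1

end Pool.Agent.Helper69.CB
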