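import Pool.Agent.Helper69.CB.Struct

/-! MP_e4665f_co: the construction for the upper bound. -/

set_option autoImplicit false

namespace Pool.Agent.Helper69.CB

open Finset SimpleGraph Pool.Agent.Helper28.RS

/-- the vertices: `q` groups of `b` vertices, and `ρ` extra vertices -/
abbrev VV (q b ρ : ℕ) : Type := (Fin q × Fin b) ⊕ Fin ρ

variable {q b ρ : ℕ}

/-- the number of the group -/
def comp : VV q b ρ → ℕ
  | Sum.inl p => p.1
  | Sum.inr r => r

/-- the position in the group; the extra vertices are copies of the vertex of position `0` -/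
def pos : VV q b ρ → ℕ
  | Sum.inl p => p.2
  | Sum.inr _ => 0

/-- an index which determines the vertex in its group -/
def idx : VV q b ρ → ℕ
  | Sum.inl p => p.2
  | Sum.inr _ => b

/-- the graph: disjoint complete graphs -/
def GG (q b ρ : ℕ) : SimpleGraph (VV q b ρ) where
  Adj x y := x ≠ y ∧ comp x = comp y
  symm := ⟨fun _ _ h => ⟨h.1.symm, h.2.symm⟩⟩
  loopless := ⟨fun _ h => h.1 rfl⟩

/-- the code of a pair of positions -/
def enc (p q : ℕ) : ℕ := if p = q then Nat.pair 0 1 else Nat.pair (min p q) (max p q)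

theorem enc_comm (p q : ℕ) : enc p q = enc q p := by
  unfold enc
  rw [min_comm, max_comm]
  simp only [eq_comm]

/-- the colours -/
def cl (q b ρ : ℕ) : Sym2 (VV q b ρ) → ℕ :=
  Sym2.lift ⟨fun x y => Nat.pair (min (comp x) (comp y)) (enc (pos x) (pos y)), fun x y => by
    show Nat.pair (min (comp x) (comp y)) (enc (pos x) (pos y)) =
      Nat.pair (min (comp y) (comp x)) (enc (pos y) (pos x))
    rw [min_comm, enc_comm]⟩

theorem cl_mk (x y : VV q b ρ) :
    cl q b ρ s(x, y) = Nat.pair (min (comp x) (comp y)) (enc (pos x) (pos y)) := rfl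

theorem enc_of_ne {p q : ℕ} (h : p ≠ q) : enc p q = Nat.pair (min p q) (max p q) := by
  unfold enc
  rw [if_neg h]

theorem enc_inj {p q p' q' : ℕ} (h : p ≠ q) (h' : p' ≠ q') (he : enc p q = enc p' q') :
    s(p, q) = s(p', q') := by
  rw [enc_of_ne h, enc_of_ne h', Nat.pair_eq_pair] at he
  rw [Sym2.eq_iff]
  omega

theorem idx_inj {x y : VV q b ρ} (h1 : comp x = comp y) (h2 : idx x = idx y) : x = y := by
  rcases x with ⟨i, p⟩ | r <;> rcases y with ⟨j, p'⟩ | r'
  · simp only [comp, idx] at h1 h2
    rw [Fin.ext h1, Fin.ext h2]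
  · simp only [idx] at h2
    exact absurd h2 p.2.ne
  · simp only [idx] at h2
    exact absurd h2.symm p'.2.ne
  · simp only [comp] at h1
    rw [Fin.ext h1]

theorem idx_le (x : VV q b ρ) : idx x < b + 1 := by
  rcases x with ⟨i, p⟩ | r
  · exact lt_trans p.2 (Nat.lt_succ_self b)
  · exact Nat.lt_succ_self b

theorem comp_lt (hρ : ρ ≤ q) (x : VV q b ρ) : comp x < q := by
  rcases x with ⟨i, p⟩ | r
  · exact i.2
  · exact lt_of_lt_of_le r.2 hρ

theorem pos_lt (hb : 2 ≤ b) (x : VV q b ρ) : pos x < b := by
  rcases x with ⟨i, p⟩ | r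
  · exact p.2
  · exact lt_of_lt_of_le (show (0 : ℕ) < 2 by norm_num) hb

theorem pos_of_idx_lt {x : VV q b ρ} (h : idx x < b) : pos x = idx x := by
  rcases x with ⟨i, p⟩ | r
  · rfl
  · exact absurd h (lt_irrefl b)

theorem pos_of_idx_eq {x : VV q b ρ} (h : idx x = b) : pos x = 0 := by
  rcases x with ⟨i, p⟩ | r
  · exact absurd h p.2.ne
  · rfl

/-- the number of edges -/
theorem edge_count (hb : 2 ≤ b) : 2 * (GG q b ρ).edgeSet.ncard ≤
    (b - 1) * (q * b + ρ) + ρ * (b + 1) := by
  classical
  have h1 : ∑ v, (GG q b ρ).degree v = 2 * (GG q b ρ).edgeFinset.card :=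
    (GG q b ρ).sum_degrees_eq_twice_card_edges
  have hdeg : ∀ v : VV q b ρ, (GG q b ρ).degree v ≤ (b - 1) + if comp v < ρ then 1 else 0 := by
    intro v
    rw [← SimpleGraph.card_neighborFinset_eq_degree]
    set m : ℕ := b + if comp v < ρ then 1 else 0 with hm
    have e1 : ((GG q b ρ).neighborFinset v).card ≤ ((range m).erase (idx v)).card := by
      refine Finset.card_le_card_of_injOn idx ?_ ?_
      · intro u hu
        have hu1 : v ≠ u ∧ comp v = comp u := (SimpleGraph.mem_neighborFinset _ _ _).1 hu
        rw [Finset.coe_erase, Set.mem_sdiff, Finset.mem_coe, Finset.mem_range,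
          Set.mem_singleton_iff]
        refine ⟨?_, fun h2 => hu1.1 (idx_inj hu1.2 h2.symm)⟩
        by_cases hv : comp v < ρ
        · rw [hm, if_pos hv]
          exact idx_le u
        · rw [hm, if_neg hv]
          rcases u with ⟨i, p⟩ | r
          · exact p.2
          · exfalso
            apply hv
            rw [hu1.2]
            exact r.2
      · intro u hu u' hu' h2
        have hu1 : v ≠ u ∧ comp v = comp u := (SimpleGraph.mem_neighborFinset _ _ _).1 hu
        have hu2 : v ≠ u' ∧ comp v = comp u' := (SimpleGraph.mem_neighborFinset _ _ _).1 hu'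
        exact idx_inj (hu1.2.symm.trans hu2.2) h2
    have e2 : idx v ∈ range m := by
      rw [Finset.mem_range, hm]
      by_cases hv : comp v < ρ
      · rw [if_pos hv]
        exact idx_le v
      · rw [if_neg hv]
        rcases v with ⟨i, p⟩ | r
        · exact p.2
        · exact absurd r.2 hv
    rw [Finset.card_erase_of_mem e2, Finset.card_range] at e1
    refine e1.trans ?_
    rw [hm]
    omega
  have h2 : ∑ v, (GG q b ρ).degree v ≤
      (b - 1) * (q * b + ρ) + ∑ v : VV q b ρ, if comp v < ρ then 1 else 0 := by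
    refine (Finset.sum_le_sum fun v _ => hdeg v).trans ?_
    rw [Finset.sum_add_distrib, Finset.sum_const, smul_eq_mul, Finset.card_univ]
    refine Nat.add_le_add_right (le_of_eq ?_) _
    rw [Fintype.card_sum, Fintype.card_prod, Fintype.card_fin, Fintype.card_fin, Fintype.card_fin]
    ring
  have h3 : (∑ v : VV q b ρ, if comp v < ρ then 1 else 0) ≤ ρ * (b + 1) := by
    rw [← Finset.sum_filter, ← Finset.card_eq_sum_ones]
    have e1 : (univ.filter fun v : VV q b ρ => comp v < ρ).card ≤
        (range ρ ×ˢ range (b + 1)).card := by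
      refine Finset.card_le_card_of_injOn (fun v => (comp v, idx v)) ?_ ?_
      · intro v hv
        have hv' : comp v < ρ := by simpa using hv
        rw [Finset.mem_coe, Finset.mem_product, Finset.mem_range, Finset.mem_range]
        exact ⟨hv', idx_le v⟩
      · intro u _ v _ h
        rw [Prod.mk.injEq] at h
        exact idx_inj h.1 h.2
    rw [Finset.card_product, Finset.card_range, Finset.card_range] at e1
    exact e1
  rw [← SimpleGraph.coe_edgeFinset, Set.ncard_coe_finset, ← h1]
  omega

variable {k : ℕ} {H : SimpleGraph (Fin k)} {A : Finset (Fin k)} {w w' : Fin k}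

/-- no rainbow copy -/
theorem not_rb (h : Cfg H A w w') (hb : b = k - A.card) :
    ¬ Rb H (GG q b ρ) (cl q b ρ) := by
  classical
  rintro ⟨f, hinj, hadj, hcol⟩
  have hA : 0 < A.card := Finset.card_pos.2 ⟨w', h.w'A⟩
  have hsize := h.size
  have hcomp0 : ∀ u v, H.Walk u v → comp (f u) = comp (f v) := by
    intro u v p
    induction p with
    | nil => rfl
    | cons hh _ ih => exact (hadj _ _ hh).2.trans ih
  have hcomp : ∀ v, comp (f v) = comp (f w) := by
    intro v
    obtain ⟨p⟩ := h.conn.preconnected v w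
    exact hcomp0 v w p
  have hk : k ≤ b + 1 := by
    have e1 : (univ : Finset (Fin k)).card ≤ (range (b + 1)).card := by
      refine Finset.card_le_card_of_injOn (fun v => idx (f v)) ?_ ?_
      · intro v _
        rw [Finset.mem_coe, Finset.mem_range]
        exact idx_le _
      · intro u _ v _ h2
        exact hinj (idx_inj ((hcomp u).trans (hcomp v).symm) h2)
    rwa [Finset.card_univ, Fintype.card_fin, Finset.card_range] at e1
  have hA1 : A.card = 1 := by omega
  have hk1 : k = b + 1 := by omega
  have hb2 : 2 ≤ b := by omega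
  have hA2 : A = {w'} := by
    obtain ⟨a, ha⟩ := Finset.card_eq_one.1 hA1
    have := h.w'A
    rw [ha, Finset.mem_singleton] at this
    rw [ha, this]
  have hall : ∀ v, v ≠ w → H.Adj w v := by
    intro v hv
    by_cases hv' : v = w'
    · rw [hv']
      exact h.adj
    · refine h.cone v ?_ hv
      rw [hA2, Finset.mem_singleton]
      exact hv'
  have hsurj : ∀ j, j < b + 1 → ∃ v, idx (f v) = j := by
    intro j hj
    have e1 : univ.image (fun v => idx (f v)) = range (b + 1) := by
      refine Finset.eq_of_subset_of_card_le ?_ ?_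
      · intro i hi
        rw [Finset.mem_image] at hi
        obtain ⟨v, _, rfl⟩ := hi
        rw [Finset.mem_range]
        exact idx_le _
      · rw [Finset.card_image_of_injective, Finset.card_univ, Fintype.card_fin,
          Finset.card_range]
        · exact hk1.ge
        · intro u v h2
          exact hinj (idx_inj ((hcomp u).trans (hcomp v).symm) h2)
    have e2 : j ∈ univ.image (fun v => idx (f v)) := by
      rw [e1, Finset.mem_range]
      exact hj
    rw [Finset.mem_image] at e2
    obtain ⟨v, _, hv⟩ := e2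
    exact ⟨v, hv⟩
  obtain ⟨v0, h0⟩ := hsurj 0 (by omega)
  obtain ⟨v1, h1⟩ := hsurj b (by omega)
  obtain ⟨v2, h2⟩ := hsurj 1 (by omega)
  have p0 : pos (f v0) = 0 := by
    rw [pos_of_idx_lt (by omega), h0]
  have p1 : pos (f v1) = 0 := pos_of_idx_eq h1
  have p2 : pos (f v2) = 1 := by
    rw [pos_of_idx_lt (by omega), h2]
  have key : ∀ u v, u ≠ w → v ≠ w → enc (pos (f w)) (pos (f u)) = enc (pos (f w)) (pos (f v)) →
      u = v := by
    intro u v hu hv he
    have e1 : s(w, u) = s(w, v) := by
      refine hcol _ (hall u hu) _ (hall v hv) ?_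
      rw [Sym2.map_mk, Sym2.map_mk, cl_mk, cl_mk, hcomp u, hcomp v, he]
    rw [Sym2.eq_iff] at e1
    rcases e1 with ⟨_, e1⟩ | ⟨e1, e2⟩
    · exact e1
    · exact e2.trans e1
  by_cases hw0 : v0 = w
  · have hw1 : v1 ≠ w := fun h3 => by
      rw [h3, ← hw0, h0] at h1
      omega
    have hw2 : v2 ≠ w := fun h3 => by
      rw [h3, ← hw0, h0] at h2
      omega
    have h4 := key v1 v2 hw1 hw2 (by
      rw [← hw0, p0, p1, p2]
      rfl)
    rw [h4, h2] at h1
    omega
  · by_cases hw1 : v1 = w
    · have hw2 : v2 ≠ w := fun h3 => by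
        rw [h3, ← hw1, h1] at h2
        omega
      have h4 := key v0 v2 hw0 hw2 (by
        rw [← hw1, p1, p0, p2]
        rfl)
      rw [h4, h2] at h0
      omega
    · have h4 := key v0 v1 hw0 hw1 (by rw [p0, p1])
      rw [h4, h1] at h0
      omega

end Pool.Agent.Helper69.CB
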